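import Pool.Agent.D0H78.PR.Rho
import Pool.Agent.R920.DB.Main

/-!
# Universal classes are de Rham-Betti classes
-/

open CategoryTheory AlgebraicGeometry TensorProduct

universe u v w

namespace Pool.Agent.D0H78.PR

open Module
open Pool.Agent.H914 Pool.Agent.H914.VarClass Pool.Agent.H914.VarClass.Obj
  Pool.Agent.H914.WeilCohomology Pool.Agent.Y121.AHS Pool.Agent.D0H78.PRL
open Pool.Agent.Y133.Half (pw ClassPred)

variable {k : Type u} [Field k] {𝒱 : VarClass k} {ops : CycleOps 𝒱} {T : HodgeTheory ops}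
  {F : Subfield ℂ} {X Y : 𝒱.Obj} (D : DeRham T.W F)

/-- The classes whose multiples belong to the de Rham cohomology. -/
def InDR (X : 𝒱.Obj) (j : ℕ) (c : T.W.H X) : Prop := twL twoPiI j (emL T.W ℂ c) ∈ D.dR X (2 * j)

lemma proj_sp {v : HL T.W ℂ X} (hv : v ∈ sp D X) (i : ℕ) :
    (show HL T.W ℂ X from H914.proj ((VC T).isInternal X) i v) ∈ D.dR X i := by
  unfold sp at hv
  induction hv using Submodule.span_induction with
  | mem a ha =>
    obtain ⟨j, hj⟩ := Set.mem_iUnion.1 ha
    have hg : (show (VC T).H X from a) ∈ (VC T).gr X j := dR_gr D hj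
    by_cases hij : j = i
    · subst hij
      have h1 : H914.proj ((VC T).isInternal X) j (show (VC T).H X from a) = a := proj_same _ hg
      change (show HL T.W ℂ X from H914.proj ((VC T).isInternal X) j (show (VC T).H X from a)) ∈ _
      rw [h1]
      exact hj
    · have h1 : H914.proj ((VC T).isInternal X) i (show (VC T).H X from a) = 0 :=
        proj_ne _ hg hij
      change (show HL T.W ℂ X from H914.proj ((VC T).isInternal X) i (show (VC T).H X from a)) ∈ _
      rw [h1]
      exact (D.form X i).1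
  | zero =>
    have h1 : H914.proj ((VC T).isInternal X) i (0 : (VC T).H X) = 0 := map_zero _
    change (show HL T.W ℂ X from H914.proj ((VC T).isInternal X) i (0 : (VC T).H X)) ∈ _
    rw [h1]
    exact (D.form X i).1
  | add x y _ _ hx hy =>
    have h1 : H914.proj ((VC T).isInternal X) i (show (VC T).H X from x + y) =
        H914.proj ((VC T).isInternal X) i (show (VC T).H X from x) +
          H914.proj ((VC T).isInternal X) i (show (VC T).H X from y) := map_add _ _ _
    change (show HL T.W ℂ X from H914.proj ((VC T).isInternal X) i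
      (show (VC T).H X from x + y)) ∈ _
    rw [h1]
    exact (D.form X i).2.1 _ hx _ hy
  | smul r x _ hx =>
    have h1 : H914.proj ((VC T).isInternal X) i
        ((show (VC T).K from (r : ℂ)) • (show (VC T).H X from x)) =
        (show (VC T).K from (r : ℂ)) • H914.proj ((VC T).isInternal X) i
          (show (VC T).H X from x) := map_smul _ _ _
    change (show HL T.W ℂ X from H914.proj ((VC T).isInternal X) i
      ((show (VC T).K from (r : ℂ)) • (show (VC T).H X from x))) ∈ _
    rw [h1]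
    exact (D.form X i).2.2.1 r r.2 _ hx

/-- Homogeneous elements of the de Rham cohomology. -/
lemma sp_gr {v : HL T.W ℂ X} (hv : v ∈ sp D X) {i : ℕ} (hi : v ∈ grL T.W ℂ X i) :
    v ∈ D.dR X i := by
  have h := proj_sp D hv i
  have h1 : H914.proj ((VC T).isInternal X) i (show (VC T).H X from v) = v := proj_same _ hi
  rwa [h1] at h

lemma mem_sp {i : ℕ} {v : HL T.W ℂ X} (hv : v ∈ D.dR X i) : v ∈ sp D X :=
  Submodule.subset_span (Set.mem_iUnion.2 ⟨i, hv⟩)

section Geo

variable {Q : ClassPred T.W}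
  (hQ : ∀ {Z : 𝒱.Obj} {j : ℕ} {c : T.W.H Z}, Q.P Z j c → InDR D Z j c) (σ : Aut F)

/-- The scalar as a unit. -/
noncomputable def ku : ((VC T).K)ˣ := Units.mk0 (kp σ) (kp_ne σ)

include hQ in
lemma geo_rho (X : 𝒱.Obj) : IsGeo (T := toH T) Q X (ku σ, fun n => rho D σ (pw X n)) where
  degree n i x hx := rm_gr D σ hx
  trace n x := rm_tr D σ x
  proj n q hq x := rm_map D σ q x
  classes n j c hc := by
    have h1 := rm_twist D σ j c
    rw [sg_fix D σ (hQ hc)] at h1
    have h2 : (twoPiI ^ j)⁻¹ • twL twoPiI j (emL T.W ℂ c) = emL T.W ℂ c := by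
      change (twoPiI ^ j)⁻¹ • (twoPiI ^ j • emL T.W ℂ c) = emL T.W ℂ c
      rw [smul_smul, inv_mul_cancel₀ (pow_ne_zero _ twoPiI_ne), one_smul]
    rw [h2] at h1
    have h3 : rm D σ (pw X n) (emL T.W ℂ c) = kp σ ^ j • emL T.W ℂ c := by
      rw [← h1, smul_smul, ← mul_pow, mul_inv_cancel₀ (kp_ne σ), one_pow, one_smul, h1]
    exact h3

/-- The element of the group. -/
noncomputable def geoElt (X : 𝒱.Obj) : geoGroup (T := toH T) Q X := ⟨_, geo_rho D hQ σ X⟩

include hQ in
/-- **Universal classes are de Rham-Betti classes.** -/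
theorem inDR_of_universal [IsAlgClosed F] {n j : ℕ} {c : T.W.H (pw X n)}
    (h : QT.IsUniversal (Q := Q) (W := T.W) X n j c) (hc : c ∈ T.W.gr (pw X n) (2 * j)) :
    InDR D (pw X n) j c := by
  have h1 := finite_conj (T := toH T) (h (geoAction (T := toH T) Q X))
  set v : HL T.W ℂ (pw X n) := twL twoPiI j (emL T.W ℂ c) with hv
  have h2 : (Set.range fun σ : Aut F => sg D σ (pw X n) v).Finite := by
    have h3 : ∀ σ : Aut F, sg D σ (pw X n) v = twoPiI ^ j • ((kp σ)⁻¹ ^ j •
        rm D σ (pw X n) (emL T.W ℂ c)) := by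
      intro σ
      rw [rm_twist, smul_smul, mul_inv_cancel₀ (pow_ne_zero _ twoPiI_ne), one_smul]
    have h4 : (Set.range fun σ : Aut F => sg D σ (pw X n) v) ⊆
        (fun x : HL T.W ℂ (pw X n) => twoPiI ^ j • x) '' (Set.range
          fun p : geoGroup (T := toH T) Q X =>
            (show HL T.W ℂ (pw X n) from ((p.1.1⁻¹ : ((VC T).K)ˣ) : (VC T).K) ^ j •
              p.1.2 n (emL T.W ℂ c))) := by
      rintro _ ⟨σ, rfl⟩
      refine ⟨_, ⟨geoElt D hQ σ X, rfl⟩, ?_⟩
      exact (h3 σ).symm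
    exact (h1.image _).subset h4
  have h5 : v ∈ sp D (pw X n) := mem_of_finite_orbit (sp D (pw X n)) (span_sp D)
    (B1 T (pw X n)) B1_nondeg (B1_mem D) (fun σ => sg D σ (pw X n))
    (fun σ => sg_semi D σ (pw X n)) h2
  refine sp_gr D h5 ?_
  have h6 : emL T.W ℂ c ∈ grL T.W ℂ (pw X n) (2 * j) :=
    Submodule.tmul_mem_baseChange_of_mem (1 : ℂ) hc
  exact Submodule.smul_mem _ _ h6

end Geo

end Pool.Agent.D0H78.PR
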