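import Pool.Agent.D0H78.PR.Law

/-!
# The group of all geometric automorphisms
-/

open CategoryTheory AlgebraicGeometry TensorProduct

universe u v w

namespace Pool.Agent.D0H78.PR

open Module
open Pool.Agent.H914 Pool.Agent.H914.VarClass Pool.Agent.H914.VarClass.Obj
  Pool.Agent.H914.WeilCohomology Pool.Agent.Y133.Half Pool.Agent.Y121.AH Pool.Agent.D0H78.QT
open Pool.Agent.D0H78.MT (IsProj ext)

variable {k : Type u} [Field k] {𝒱 : VarClass k} {ops : CycleOps 𝒱} {T : HodgeTheory ops}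
  {X Y : 𝒱.Obj}

/-- Families of automorphisms of the cohomology of the powers of `X`, with a scalar. -/
abbrev Fam (T : HodgeTheory ops) (X : 𝒱.Obj) : Type :=
  ((CW T).K)ˣ × ∀ n, ((CW T).H (pw X n) ≃ₐ[(CW T).K] (CW T).H (pw X n))

/-- The conditions. -/
structure IsGeo (Q : ClassPred T.W) (X : 𝒱.Obj) (p : Fam T X) : Prop where
  degree : ∀ n i, ∀ x ∈ (CW T).gr (pw X n) i, p.2 n x ∈ (CW T).gr (pw X n) i
  trace : ∀ n x, (CW T).tr (pw X n) (p.2 n x) =
    (p.1 : (CW T).K) ^ (pw X n).dim * (CW T).tr (pw X n) x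
  proj : ∀ n q, IsProj X n q → ∀ x, p.2 n ((CW T).map q x) = (CW T).map q (p.2 0 x)
  classes : ∀ n j c, Q.P (pw X n) j c →
    p.2 n (ext T.W ℂ c) = (p.1 : (CW T).K) ^ j • ext T.W ℂ c

namespace IsGeo

variable {Q : ClassPred T.W} {p q : Fam T X}

lemma one : IsGeo Q X (1 : Fam T X) where
  degree n i x hx := hx
  trace n x := by
    have h : ((1 : Fam T X).1 : (CW T).K) = 1 := rfl
    rw [h, one_pow, one_mul]
    rfl
  proj n q hq x := rfl
  classes n j c hc := by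
    have h : ((1 : Fam T X).1 : (CW T).K) = 1 := rfl
    rw [h, one_pow, one_smul]
    rfl

lemma mul (hp : IsGeo Q X p) (hq : IsGeo Q X q) : IsGeo Q X (p * q) where
  degree n i x hx := hp.degree n i _ (hq.degree n i x hx)
  trace n x := by
    have h1 : (p * q).2 n x = p.2 n (q.2 n x) := rfl
    have h2 : ((p * q).1 : (CW T).K) = (p.1 : (CW T).K) * q.1 := rfl
    rw [h1, h2, hp.trace, hq.trace, mul_pow, mul_assoc]
  proj n r hr x := by
    have h1 : ∀ m y, (p * q).2 m y = p.2 m (q.2 m y) := fun _ _ => rfl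
    rw [h1, h1, hq.proj n r hr, hp.proj n r hr]
  classes n j c hc := by
    have h1 : (p * q).2 n (ext T.W ℂ c) = p.2 n (q.2 n (ext T.W ℂ c)) := rfl
    have h2 : ((p * q).1 : (CW T).K) = (p.1 : (CW T).K) * q.1 := rfl
    rw [h1, h2, hq.classes n j c hc, map_smul, hp.classes n j c hc, smul_smul, mul_pow, mul_comm]

lemma inv (hp : IsGeo Q X p) : IsGeo Q X p⁻¹ := by
  have h1 : ∀ m y, p⁻¹.2 m (p.2 m y) = y := fun m y => (p.2 m).symm_apply_apply y
  have h2 : ∀ m y, p.2 m (p⁻¹.2 m y) = y := fun m y => (p.2 m).apply_symm_apply y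
  have h3 : (p⁻¹.1 : (CW T).K) * (p.1 : (CW T).K) = 1 := Units.inv_mul _
  refine ⟨fun n i x hx => ?_, fun n x => ?_, fun n r hr x => ?_, fun n j c hc => ?_⟩
  · let f : (CW T).gr (pw X n) i →ₗ[(CW T).K] (CW T).gr (pw X n) i :=
      ((p.2 n).toLinearMap).restrict (hp.degree n i)
    have hf : Function.Injective f := by
      intro a b hab
      apply Subtype.ext
      have h4 : p.2 n a = p.2 n b := congrArg Subtype.val hab
      exact (p.2 n).injective h4
    obtain ⟨y, hy⟩ := (LinearMap.injective_iff_surjective.1 hf) ⟨x, hx⟩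
    have h5 : p.2 n y = x := congrArg Subtype.val hy
    rw [← h5, h1]
    exact y.2
  · have h4 := hp.trace n (p⁻¹.2 n x)
    rw [h2] at h4
    rw [h4, ← mul_assoc, ← mul_pow, h3, one_pow, one_mul]
  · have h4 := hp.proj n r hr (p⁻¹.2 0 x)
    rw [h2] at h4
    rw [← h4, h1]
  · have h4 := hp.classes n j c hc
    have h5 := congrArg (fun y => (p⁻¹.1 : (CW T).K) ^ j • p⁻¹.2 n y) h4
    simp only [map_smul, h1, smul_smul, ← mul_pow, h3, one_pow, one_smul] at h5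
    exact h5.symm

end IsGeo

/-- The group of all geometric families. -/
def geoGroup (Q : ClassPred T.W) (X : 𝒱.Obj) : Subgroup (Fam T X) where
  carrier := {p | IsGeo Q X p}
  one_mem' := IsGeo.one
  mul_mem' := IsGeo.mul
  inv_mem' := IsGeo.inv

/-- The universal action. -/
noncomputable def geoAction (Q : ClassPred T.W) (X : 𝒱.Obj) : GaloisAction Q X where
  L := ℂ
  field := inferInstance
  alg := T.alg
  emb := ⟨RingHom.id ℂ⟩
  Γ := geoGroup Q X
  group := inferInstance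
  χ := (MonoidHom.fst _ _).comp (geoGroup Q X).subtype
  ρ n := ((Pi.evalMonoidHom (fun n => ((CW T).H (pw X n) ≃ₐ[(CW T).K] (CW T).H (pw X n))) n).comp
    (MonoidHom.snd _ _)).comp (geoGroup Q X).subtype
  degree g n i x hx := g.2.degree n i x hx
  trace g n x := g.2.trace n x
  proj g n q hq x := g.2.proj n q hq x
  classes g n j c hc := g.2.classes n j c hc

/-- The conjugates of a universal class. -/
lemma finite_conj {Q : ClassPred T.W} {n j : ℕ} {c : T.W.H (pw X n)}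
    (h : (geoAction Q X).IsTate n j (ext T.W ℂ c)) :
    (Set.range fun p : geoGroup Q X =>
      ((p.1.1⁻¹ : ((CW T).K)ˣ) : (CW T).K) ^ j • p.1.2 n (ext T.W ℂ c)).Finite := by
  obtain ⟨Δ, hΔ, h⟩ : ∃ Δ : Subgroup (geoGroup Q X), Δ.FiniteIndex ∧ ∀ g ∈ Δ,
      g.1.2 n (ext T.W ℂ c) = (g.1.1 : (CW T).K) ^ j • ext T.W ℂ c := h.2
  let f : geoGroup Q X → (CW T).H (pw X n) := fun p =>
    ((p.1.1⁻¹ : ((CW T).K)ˣ) : (CW T).K) ^ j • p.1.2 n (ext T.W ℂ c)
  have hf : ∀ g : geoGroup Q X, ∀ δ ∈ Δ, f (g * δ) = f g := by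
    intro g δ hδ
    have h1 : δ.1.2 n (ext T.W ℂ c) = (δ.1.1 : (CW T).K) ^ j • ext T.W ℂ c := h δ hδ
    have h2 : ((g * δ).1.2 n) (ext T.W ℂ c) = g.1.2 n (δ.1.2 n (ext T.W ℂ c)) := rfl
    have h3 : (((g * δ).1.1⁻¹ : ((CW T).K)ˣ) : (CW T).K) =
        ((g.1.1⁻¹ : ((CW T).K)ˣ) : (CW T).K) * ((δ.1.1⁻¹ : ((CW T).K)ˣ) : (CW T).K) := by
      rw [← Units.val_mul, ← mul_inv]; rfl
    have h4 : ((δ.1.1⁻¹ : ((CW T).K)ˣ) : (CW T).K) * (δ.1.1 : (CW T).K) = 1 := Units.inv_mul _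
    change (((g * δ).1.1⁻¹ : ((CW T).K)ˣ) : (CW T).K) ^ j • ((g * δ).1.2 n) (ext T.W ℂ c) = _
    rw [h2, h1, map_smul, smul_smul, h3, ← mul_pow, mul_assoc, h4, mul_one]
  have hfin : Finite (geoGroup Q X ⧸ Δ) := Subgroup.finite_quotient_of_finiteIndex
  have h5 : Set.range f ⊆ Set.range fun q : geoGroup Q X ⧸ Δ => f q.out := by
    rintro _ ⟨g, rfl⟩
    refine ⟨(g : geoGroup Q X ⧸ Δ), ?_⟩
    obtain ⟨δ, hδ⟩ := QuotientGroup.mk_out_eq_mul Δ g
    change f (Quotient.out _) = f g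
    rw [hδ]
    exact hf g δ δ.2
  exact (Set.finite_range _).subset h5

end Pool.Agent.D0H78.PR
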