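import Pool.Agent.R920.MT.Defs
import Pool.Agent.Y121.AHS.Defs
import Pool.Agent.Y133.Half.PwDefs

/-!
# Hodge classes and de Rham-Betti classes on the powers of a variety: definitions
-/

open CategoryTheory AlgebraicGeometry Filter Topology

open scoped ENNReal

universe u

namespace Pool.Agent.D0H78.PRL

open Pool.Agent.H914 Pool.Agent.H914.VarClass Pool.Agent.H914.VarClass.Obj
  Pool.Agent.H914.WeilCohomology Pool.Agent.R920.MT Pool.Agent.Y121.AHS
open Pool.Agent.Y133.Half (pw)

/-- The quotients `t n / s n` converge to `N`, an element of `ℕ ∪ {∞}`. -/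
def HasLimit (t s : ℕ → ℕ) (N : ℕ∞) : Prop :=
  Tendsto (fun n => (t n : ℝ≥0∞) / s n) atTop (𝓝 (N : ℝ≥0∞))

/-- The dimension of the subspace spanned by the elements with one of the properties `P j`. -/
noncomputable def spanDim (K : Type) {A : Type} [Field K] [AddCommGroup A] [Module K A]
    (P : ℕ → A → Prop) : ℕ :=
  Set.finrank K {x | ∃ j, P j x}

/-- The number `2 π i`. -/
noncomputable def twoPiI : ℂ := 2 * Real.pi * Complex.I

/-- The set `S` is a vector space over the subfield `F` which spans the complex vector space `U`. -/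
def IsForm {V : Type} [AddCommGroup V] [Module ℂ V] (F : Subfield ℂ) (U : Submodule ℂ V)
    (S : Set V) : Prop :=
  0 ∈ S ∧ (∀ a ∈ S, ∀ b ∈ S, a + b ∈ S) ∧ (∀ r ∈ F, ∀ a ∈ S, r • a ∈ S) ∧
    Submodule.span ℂ S = U

variable {k : Type u} [Field k] {𝒱 : VarClass k} {ops : CycleOps 𝒱}

/-- A de Rham cohomology with coefficients in the subfield `F` of the field of complex numbers (in the
intended use all varieties are defined over `F`, for instance over the field of algebraic numbers,
and `dR X i` is the algebraic de Rham cohomology of `X` in degree `i`, as a subset of the cohomology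
with complex coefficients by the comparison isomorphism): subspaces over `F` of the cohomology with
complex coefficients which span it, which are stable under products and pull-backs, which contain
the classes of algebraic cycles of codimension `j` multiplied by `(2 π i) ^ j`, and such that the
trace of a class of degree `2 dim X` in `dR X` is in `(2 π i) ^ dim X F`. -/
structure DeRham (W : WeilCohomology.{u, 0} ops) [Algebra W.K ℂ] (F : Subfield ℂ) where
  /-- the de Rham cohomology of degree `i` -/
  dR : ∀ X : 𝒱.Obj, ℕ → Set (HL W ℂ X)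
  form : ∀ X i, IsForm F (grL W ℂ X i) (dR X i)
  mul : ∀ X i j a b, a ∈ dR X i → b ∈ dR X j → mulL a b ∈ dR X (i + j)
  map : ∀ (X Y : 𝒱.Obj) (f : X ⟶ Y) i b, b ∈ dR Y i → mapL f b ∈ dR X i
  cyc : ∀ X j z, X.IsCyc j z → twL twoPiI j (emL W ℂ (W.cl X z)) ∈ dR X (2 * j)
  tr : ∀ X a, a ∈ dR X (2 * X.dim) → ∃ r ∈ F, trL a = twoPiI ^ X.dim * r

section Classes

variable {T : HodgeTheory ops} {F : Subfield ℂ} (D : DeRham T.W F) (X : 𝒱.Obj) (n j : ℕ)
  (x : T.W.H (pw X n))

/-- The de Rham-Betti classes of codimension `j` on the product of `n + 1` copies of `X`: the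
rational classes `x` such that `(2 π i) ^ j x` belongs to the de Rham cohomology. -/
def DeRhamBetti : Prop := twL twoPiI j (emL T.W ℂ x) ∈ D.dR (pw X n) (2 * j)

variable (T)

/-- The Hodge classes of degree `2 j` on the product of `n + 1` copies of `X`. -/
def Hodge : Prop := IsHodge T (pw X n) j x

/-- The motivated classes of degree `2 j` on the product of `n + 1` copies of `X`. -/
def Motivated : Prop := IsMotivated T.W (pw X n) j x

end Classes

/-- The classes on the powers of `X` with the property `P` have the property `Q`. -/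
def Imply {A : ℕ → Type} (P Q : ∀ n, ℕ → A n → Prop) : Prop := ∀ n j x, P n j x → Q n j x

end Pool.Agent.D0H78.PRL
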