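import Pool.Agent.D0H78.QT.Final

/-!
# The index law for a system of classes which contains the universal classes
-/

open CategoryTheory AlgebraicGeometry TensorProduct Filter Topology

open scoped ENNReal

universe u v w

namespace Pool.Agent.D0H78.PR

open Module
open Pool.Agent.H914 Pool.Agent.H914.VarClass Pool.Agent.H914.VarClass.Obj
  Pool.Agent.H914.WeilCohomology Pool.Agent.Y133.Half Pool.Agent.Y121.AH Pool.Agent.D0H78.QT
open Pool.Agent.D0H78.MT (gl gp ix gl_mem_C HasIndex.unique)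

variable {k : Type u} [Field k] {𝒱 : VarClass k} {ops : CycleOps 𝒱} {T : HodgeTheory ops}
  {X Y : 𝒱.Obj} {Q P : ClassPred T.W}

lemma pred_gp {n : ℕ} {x : T.W.H (pw X n)} (hx : x ∈ P.sys.C (pw X n)) :
    ∀ m, gp T.W x m ∈ P.sys.C (pw X (ix n m))
  | 0 => hx
  | m + 1 => gl_mem_C (pred_gp hx m) hx

/-- If the index is finite, the classes are universal. -/
theorem pred_le_Uni (hQ : LeHodge T Q) (hnd : ∀ n, Q.sys.Nondeg (pw X n))
    (hQP : ∀ Z : 𝒱.Obj, Q.sys.C Z ≤ P.sys.C Z) [Nontrivial (T.W.H X)] {N : ℕ∞}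
    (hN : Q.sys.IsInd X (fun n => P.sys.C (pw X n)) N) (hN' : N ≠ ⊤)
    (n : ℕ) : P.sys.C (pw X n) ≤ Uni T Q X n := by
  obtain ⟨r, c, -, -, hG⟩ := Sys.ind_generators hnd
    (Sys.stab_of_le hQP) (fun n => hQP _) hN hN'
    (fun n => {c | ∃ j, P.P (pw X n) j c}) fun n => rfl
  intro x hx
  refine F_le_Uni hQ n (mem_F_of_genS c (P.sys.even hx) fun m => ?_)
  rw [← hG (ix n m)]
  exact pred_gp hx m

/-- The index of a system of classes which contains the universal classes. -/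
theorem pred_law (hQ : LeHodge T Q) (hnd : ∀ n, Q.sys.Nondeg (pw X n)) [Nontrivial (T.W.H X)]
    (hQP : ∀ {Z : 𝒱.Obj} {j : ℕ} {c : T.W.H Z}, Q.P Z j c → P.P Z j c)
    (hU : ∀ n, Uni T Q X n ≤ P.sys.C (pw X n)) {c : ℕ∞}
    (hc : HasIndex (fun n => finrank T.W.K (Uni T Q X n))
      (fun n => dimBy T.W Q.P (pw X n)) c) : ∃ N : ℕ∞, 1 ≤ N ∧
    HasIndex (fun n => dimBy T.W P.P (pw X n))
      (fun n => dimBy T.W Q.P (pw X n)) N ∧ (N = c ∨ N = ⊤) ∧
    (N = 1 ↔ ∀ n j x, P.P (pw X n) j x → Q.P (pw X n) j x) ∧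
    (N ≠ ⊤ → ∀ n, P.sys.C (pw X n) = Uni T Q X n) := by
  have hQP' : ∀ Z : 𝒱.Obj, Q.sys.C Z ≤ P.sys.C Z := fun Z => ClassPred.sys_le (fun h => hQP h) Z
  obtain ⟨N, h1, h2, -, h4⟩ := Sys.stab_index hnd
    (Sys.stab_of_le hQP' (X := X)) (fun n => hQP' _)
  have key : N ≠ ⊤ → ∀ n, P.sys.C (pw X n) = Uni T Q X n := fun hN n =>
    le_antisymm (pred_le_Uni hQ hnd hQP' h2 hN n) (hU n)
  refine ⟨N, h1, h2, ?_, ?_, key⟩
  · by_cases hN : N = ⊤
    · exact Or.inr hN
    · left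
      have h5 : HasIndex (fun n => finrank T.W.K (Uni T Q X n))
          (fun n => dimBy T.W Q.P (pw X n)) N := by
        have h6 : (fun n => finrank T.W.K (Uni T Q X n)) =
            fun n => finrank T.W.K (P.sys.C (pw X n)) := by
          funext n
          rw [key hN n]
        rw [h6]
        exact h2
      exact HasIndex.unique h5 hc
  · rw [h4]
    exact forall_congr' fun n => ClassPred.sys_eq_iff (fun h => hQP h) (pw X n)

end Pool.Agent.D0H78.PR
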