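import Pool.Agent.D0H78.PR.Per
import Pool.Agent.D0H78.MT.LConv

/-!
# The index law for Hodge classes and de Rham-Betti classes
-/

open CategoryTheory AlgebraicGeometry TensorProduct

universe u v w

namespace Pool.Agent.D0H78.PRL

open Module
open Pool.Agent.H914 Pool.Agent.H914.VarClass Pool.Agent.H914.VarClass.Obj
  Pool.Agent.H914.WeilCohomology Pool.Agent.Y121.AHS Pool.Agent.D0H78.PR
open Pool.Agent.Y133.Half (pw ClassPred dimBy HasIndex)
open Pool.Agent.R920.MT (IsMotivated motPred)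
open Pool.Agent.D0H78.MT (HasIndex.unique HasIndex.top_div)

variable {k : Type u} [Field k] {𝒱 : VarClass k} {ops : CycleOps 𝒱}

/-- **The index law for Hodge classes and de Rham-Betti classes over the motivated classes.** -/
theorem main (T : HodgeTheory ops) {F : Subfield ℂ} [IsAlgClosed F] (D : DeRham T.W F)
    (X : 𝒱.Obj) [Nontrivial (T.W.H X)] (m h b : ℕ → ℕ)
    (hm : ∀ n, m n = spanDim T.W.K (Motivated T X n))
    (hh : ∀ n, h n = spanDim T.W.K (Hodge T X n))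
    (hb : ∀ n, b n = spanDim T.W.K (DeRhamBetti D X n)) :
    ∃ N M : ℕ∞, 1 ≤ N ∧ 1 ≤ M ∧ HasLimit h m N ∧ HasLimit b m M ∧
      Imply (Motivated T X) (Hodge T X) ∧ Imply (Motivated T X) (DeRhamBetti D X) ∧
      (N = 1 ↔ Imply (Hodge T X) (Motivated T X)) ∧
      (M = 1 ↔ Imply (DeRhamBetti D X) (Motivated T X)) ∧
      (N ≠ ⊤ → Imply (Hodge T X) (DeRhamBetti D X)) ∧
      (M ≠ ⊤ → Imply (DeRhamBetti D X) (Hodge T X)) ∧
      (N ≠ ⊤ → M ≠ ⊤ → N = M) ∧ (N ≠ ⊤ → M = ⊤ → HasLimit b h ⊤) ∧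
      (M ≠ ⊤ → N = ⊤ → HasLimit h b ⊤) := by
  have : Nontrivial ((toH T).W.H X) := ‹Nontrivial (T.W.H X)›
  obtain rfl := funext hm
  obtain rfl := funext hh
  obtain rfl := funext hb
  set Q : ClassPred (toH T).W := motPred T.W with hQd
  have hQ : QT.LeHodge (toH T) Q := fun h => Pool.Agent.R920.MT.IsMotivated.hodge (T := toH T) h
  have hnd : ∀ n, Q.sys.Nondeg (pw X n) := fun n =>
    Pool.Agent.R920.MT.mot_nondeg (toH T) (pw X n)
  obtain ⟨c, hc1, hc, -, -⟩ := QT.uni_law hQ X hnd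
  obtain ⟨N, hN1, hN, hNc, hN2, hN3⟩ := QT.hodge_law hQ X hnd hc
  have hQD : ∀ {Z : 𝒱.Obj} {j : ℕ} {c : T.W.H Z}, Q.P Z j c → InDR D Z j c :=
    fun h => mot_inDR D h
  have hUD : ∀ n, QT.Uni (toH T) Q X n ≤ (drbP D).sys.C (pw X n) := by
    intro n
    rw [QT.Uni_eq_span hQ, Submodule.span_le]
    rintro x ⟨j, hx⟩
    have h1 := (QT.mem_Uni_iff hQ).2 hx
    exact ClassPred.sp_of (Q := drbP D) (inDR_of_universal D hQD hx h1.1)
  obtain ⟨M, hM1, hM, hMc, hM2, hM3⟩ := pred_law (T := toH T) (P := drbP D) hQ hnd hQD hUD hc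
  have e1 : N ≠ ⊤ → Imply (Hodge T X) (DeRhamBetti D X) := by
    intro hN' n j x hx
    have h1 : x ∈ QT.Uni (toH T) Q X n := by
      rw [← hN3 hN' n]
      exact ClassPred.sp_of (Q := Pool.Agent.Y121.AH.hodgePred (toH T)) hx
    exact ClassPred.of_sp (Q := drbP D) (hUD n h1) hx.1
  have e2 : M ≠ ⊤ → Imply (DeRhamBetti D X) (Hodge T X) := by
    intro hM' n j x hx
    have h1 : x ∈ QT.Uni (toH T) Q X n := by
      rw [← hM3 hM' n]
      exact ClassPred.sp_of (Q := drbP D) hx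
    exact QT.Uni_isHodge hQ h1 ((drbP D).gr hx)
  refine ⟨N, M, hN1, hM1, hN, hM, fun n j x hx => hQ hx, fun n j x hx => hQD hx, hN2, hM2, e1, e2,
    ?_, ?_, ?_⟩
  · intro h1 h2
    rcases hNc with h3 | h3
    · rcases hMc with h4 | h4
      · rw [h3, h4]
      · exact absurd h4 h2
    · exact absurd h3 h1
  · rintro hN' rfl
    exact HasIndex.top_div (fun n => QT.cls_pos (T := toH T) (Q := Q) n) hM hN hN'
  · rintro hM' rfl
    exact HasIndex.top_div (fun n => QT.cls_pos (T := toH T) (Q := Q) n) hN hM hM'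

end Pool.Agent.D0H78.PRL
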