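import Mathlib
import Pool.Agent.H37PG.Gal

/-!
# Complex numbers with finite orbits
-/

namespace Pool.Agent.D0H78.PR

/-- The automorphisms of the complex numbers which fix the elements of `F`. -/
def Aut (F : Subfield ℂ) : Type := {σ : ℂ ≃+* ℂ // ∀ c ∈ F, σ c = c}

/-- A complex number with a finite orbit under the automorphisms over an algebraically closed
subfield belongs to the subfield. -/
theorem mem_of_finite (F : Subfield ℂ) [IsAlgClosed F] {z : ℂ}
    (h : (Set.range fun σ : Aut F => σ.1 z).Finite) : z ∈ F := by
  by_cases hz : IsAlgebraic F z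
  · have h1 : (minpoly F z).degree = 1 :=
      IsAlgClosed.degree_eq_one_of_irreducible F (minpoly.irreducible hz.isIntegral)
    obtain ⟨y, hy⟩ := minpoly.mem_range_of_degree_eq_one F z h1
    rw [← hy]
    exact y.2
  · exfalso
    have hz' : Transcendental F z := hz
    have h1 : ∀ n : ℕ, ∃ σ : Aut F, σ.1 z = z + n := by
      intro n
      have h2 : Transcendental F (z + (n : ℂ)) := by
        intro h3
        apply hz'
        have h4 : IsAlgebraic F (n : ℂ) := isAlgebraic_natCast n
        have h5 := h3.sub h4
        rwa [add_sub_cancel_right] at h5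
      obtain ⟨σ, hσ, h3⟩ := Pool.Agent.H37PG.exists_aut hz' h2
      exact ⟨⟨σ, fun c hc => hσ ⟨c, hc⟩⟩, h3⟩
    choose σ hσ using h1
    have h2 : (Set.range fun n : ℕ => z + (n : ℂ)).Finite := by
      refine h.subset ?_
      rintro _ ⟨n, rfl⟩
      exact ⟨σ n, hσ n⟩
    refine Set.infinite_range_of_injective ?_ h2
    intro a b hab
    have h3 : (a : ℂ) = b := add_left_cancel hab
    exact_mod_cast h3

end Pool.Agent.D0H78.PR
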