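import Pool.Agent.D0H78.PR.Drb

/-!
# The system of the de Rham-Betti classes
-/

open CategoryTheory AlgebraicGeometry TensorProduct

universe u v w

namespace Pool.Agent.D0H78.PR

open Module
open Pool.Agent.H914 Pool.Agent.H914.VarClass Pool.Agent.H914.VarClass.Obj
  Pool.Agent.H914.WeilCohomology Pool.Agent.Y121.AHS Pool.Agent.D0H78.PRL
open Pool.Agent.Y133.Half (pw ClassPred)
open Pool.Agent.Y133.Per (IsDRB twist tm Base baseMap baseTr drbPred)
open Pool.Agent.R920.DB (IsGraded baseSub mot_drb)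
open Pool.Agent.R920.MT (IsMotivated motPred)

variable {k : Type u} [Field k] {𝒱 : VarClass k} {ops : CycleOps 𝒱} {T : HodgeTheory ops}
  {F : Subfield ℂ} {X Y : 𝒱.Obj} (D : DeRham T.W F)

lemma sp_mul {a b : HL T.W ℂ X} (ha : a ∈ sp D X) (hb : b ∈ sp D X) : mulL a b ∈ sp D X := by
  unfold sp at ha hb
  induction ha using Submodule.span_induction with
  | mem a ha =>
    obtain ⟨i, hi⟩ := Set.mem_iUnion.1 ha
    induction hb using Submodule.span_induction with
    | mem b hb =>
      obtain ⟨j, hj⟩ := Set.mem_iUnion.1 hb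
      exact mem_sp D (D.mul X i j a b hi hj)
    | zero =>
      have h : mulL a (0 : HL T.W ℂ X) = 0 := mul_zero (show (VC T).H X from a)
      rw [h]; exact Submodule.zero_mem _
    | add x y _ _ hx hy => rw [mulL_add]; exact Submodule.add_mem _ hx hy
    | smul r x _ hx =>
      have h : mulL a (r • x) = r • mulL a x := mulL_smul (r : ℂ) a x
      rw [h]; exact Submodule.smul_mem _ _ hx
  | zero =>
    have h : mulL (0 : HL T.W ℂ X) b = 0 := zero_mul (show (VC T).H X from b)
    rw [h]; exact Submodule.zero_mem _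
  | add x y _ _ hx hy => rw [add_mulL]; exact Submodule.add_mem _ hx hy
  | smul r x _ hx =>
    have h : mulL (r • x) b = r • mulL x b := smul_mulL (r : ℂ) x b
    rw [h]; exact Submodule.smul_mem _ _ hx

lemma sp_map (f : X ⟶ Y) {b : HL T.W ℂ Y} (hb : b ∈ sp D Y) : mapL f b ∈ sp D X := by
  unfold sp at hb
  induction hb using Submodule.span_induction with
  | mem b hb =>
    obtain ⟨j, hj⟩ := Set.mem_iUnion.1 hb
    exact mem_sp D (D.map X Y f j b hj)
  | zero =>
    have h : mapL f (0 : HL T.W ℂ Y) = 0 := map_zero ((VC T).map f)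
    rw [h]; exact Submodule.zero_mem _
  | add x y _ _ hx hy => rw [mapL_add]; exact Submodule.add_mem _ hx hy
  | smul r x _ hx =>
    have h : mapL f (r • x) = r • mapL f x := mapL_smul f (r : ℂ) x
    rw [h]; exact Submodule.smul_mem _ _ hx

lemma sp_tr {a : HL T.W ℂ X} (ha : a ∈ sp D X) : ∃ r ∈ F, trL a = twoPiI ^ X.dim * r := by
  unfold sp at ha
  induction ha using Submodule.span_induction with
  | mem a ha =>
    obtain ⟨i, hi⟩ := Set.mem_iUnion.1 ha
    exact tr_dR D hi
  | zero =>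
    refine ⟨0, F.zero_mem, ?_⟩
    rw [mul_zero]
    exact map_zero ((VC T).tr X)
  | add x y _ _ hx hy =>
    obtain ⟨r, hr, h1⟩ := hx
    obtain ⟨s, hs, h2⟩ := hy
    exact ⟨r + s, F.add_mem hr hs, by rw [trL_add, h1, h2, mul_add]⟩
  | smul r x _ hx =>
    obtain ⟨s, hs, h2⟩ := hx
    have h : trL (r • x) = r * trL x := trL_smul (r : ℂ) x
    exact ⟨r * s, F.mul_mem r.2 hs, by rw [h, h2]; ring⟩

lemma twist_eq (j : ℕ) (c : T.W.H X) :
    (twist j c : Base T.W.K (T.W.H X)) = twL twoPiI j (emL T.W ℂ c) := by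
  have h : (twoPiI ^ j • tm 1 c : Base T.W.K (T.W.H X)) = tm (twoPiI ^ j * 1) c :=
    Pool.Agent.Y133.Per.smul_tm _ _ _
  rw [mul_one] at h
  exact h.symm

/-- The de Rham structure in the sense of helper133. -/
noncomputable def toPer : Pool.Agent.Y133.Per.DeRham T.W F where
  dR X := (sp D X : Set (HL T.W ℂ X))
  form X :=
    { zero := Submodule.zero_mem (sp D X)
      add := fun a ha b hb => Submodule.add_mem (sp D X) ha hb
      smul := fun r hr a ha => Submodule.smul_mem (sp D X) (⟨r, hr⟩ : F) ha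
      scal := fun r => by
        obtain ⟨q, rfl⟩ := T.rat r
        rw [map_ratCast]
        exact SubfieldClass.ratCast_mem F q
      span := span_sp D
      mul := fun a ha b hb => sp_mul D ha hb
      cyc := fun j c hc => by
        obtain ⟨z, hz, rfl⟩ := hc
        have h := mem_sp D (D.cyc X j z hz)
        rw [← twist_eq] at h
        exact h
      tr := fun a ha => sp_tr D ha }
  map f := fun b hb => sp_map D f hb

lemma isDRB_iff {j : ℕ} {c : T.W.H X} : IsDRB (toPer D) X j c ↔ InDR D X j c := by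
  constructor
  · rintro ⟨h1, h2⟩
    have h3 : twL twoPiI j (emL T.W ℂ c) ∈ sp D X := by
      rw [← twist_eq]; exact h2
    have h4 : emL T.W ℂ c ∈ grL T.W ℂ X (2 * j) :=
      Submodule.tmul_mem_baseChange_of_mem (1 : ℂ) h1
    exact sp_gr D h3 (Submodule.smul_mem _ _ h4)
  · intro h
    refine ⟨?_, ?_⟩
    · have h1 := dR_gr D h
      have h2 : (twoPiI ^ j)⁻¹ • twL twoPiI j (emL T.W ℂ c) = emL T.W ℂ c := by
        change (twoPiI ^ j)⁻¹ • (twoPiI ^ j • emL T.W ℂ c) = emL T.W ℂ c
        rw [smul_smul, inv_mul_cancel₀ (pow_ne_zero _ twoPiI_ne), one_smul]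
      have h3 : emL T.W ℂ c ∈ grL T.W ℂ X (2 * j) := by
        rw [← h2]; exact Submodule.smul_mem _ _ h1
      exact Pool.Agent.Y121.AH.mem_of_em_mem (L := ℂ) h3
    · have h1 := mem_sp D h
      rw [← twist_eq] at h1
      exact h1

lemma mem_baseSub {U : Submodule T.W.K (T.W.H X)} {x : HL T.W ℂ X}
    (hx : x ∈ U.baseChange ℂ) : (show Base T.W.K (T.W.H X) from x) ∈ baseSub U := by
  rw [Submodule.baseChange_eq_span] at hx
  refine Submodule.span_mono ?_ hx
  rintro _ ⟨c, hc, rfl⟩
  exact ⟨c, hc, rfl⟩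

lemma graded_toPer : IsGraded (toPer D) := by
  intro X a ha
  refine ⟨fun i => H914.proj ((VC T).isInternal X) i a, fun i => ⟨mem_sp D (proj_sp D ha i), ?_⟩, ?_⟩
  · exact mem_baseSub (H914.proj_mem ((VC T).isInternal X) i a)
  · exact (Pool.Agent.D0H78.MT.sum_proj_eq (VC T) (X := X) a).symm

/-- The de Rham-Betti classes. -/
noncomputable def drbP : ClassPred T.W where
  P := InDR D
  gr h := ((isDRB_iff D).2 h).1
  zero := (isDRB_iff D).1 (drbPred (toPer D)).zero
  add h h' := (isDRB_iff D).1 ((drbPred (toPer D)).add ((isDRB_iff D).2 h) ((isDRB_iff D).2 h'))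
  smul r _ h := (isDRB_iff D).1 ((drbPred (toPer D)).smul r ((isDRB_iff D).2 h))
  cl hz := (isDRB_iff D).1 ((drbPred (toPer D)).cl hz)
  mul h h' := (isDRB_iff D).1 ((drbPred (toPer D)).mul ((isDRB_iff D).2 h) ((isDRB_iff D).2 h'))
  map f _ _ h := (isDRB_iff D).1 ((drbPred (toPer D)).map f ((isDRB_iff D).2 h))
  push f _ _ hl _ h := (isDRB_iff D).1 ((drbPred (toPer D)).push f hl ((isDRB_iff D).2 h))

/-- Motivated classes are de Rham-Betti classes. -/
lemma mot_inDR {j : ℕ} {c : T.W.H X} (h : IsMotivated T.W X j c) : InDR D X j c :=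
  (isDRB_iff D).1 (mot_drb (graded_toPer D) h)

end Pool.Agent.D0H78.PR
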