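import Pool.Agent.D0H78.PR.Sig

/-!
# The geometric automorphisms given by the de Rham cohomology
-/

open CategoryTheory AlgebraicGeometry TensorProduct

universe u v w

namespace Pool.Agent.D0H78.PR

open Module
open Pool.Agent.H914 Pool.Agent.H914.VarClass Pool.Agent.H914.VarClass.Obj
  Pool.Agent.H914.WeilCohomology Pool.Agent.Y121.AHS Pool.Agent.D0H78.PRL
open Pool.Agent.Y121.AH (CW psi psi_em psi_smul psi_map psi_gr ratAlg kap em)
open Pool.Agent.Y133.Half (pw ClassPred)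

variable {k : Type u} [Field k] {𝒱 : VarClass k} {ops : CycleOps 𝒱} {T : HodgeTheory ops}
  {F : Subfield ℂ} {X Y : 𝒱.Obj}

/-- The conjugation of the coefficients. -/
noncomputable def co (T : HodgeTheory ops) (σ : ℂ ≃+* ℂ) (X : 𝒱.Obj) :
    (VC T).H X →+* (VC T).H X := psi T.W (ratAlg (toH T) σ.toRingHom) X

/-- The conjugation as a map. -/
noncomputable def cm (T : HodgeTheory ops) (σ : ℂ ≃+* ℂ) (X : 𝒱.Obj) (x : HL T.W ℂ X) :
    HL T.W ℂ X := co T σ X x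

lemma co_smul (σ : ℂ ≃+* ℂ) (r : ℂ) (x : HL T.W ℂ X) : cm T σ X (r • x) = σ r • cm T σ X x :=
  psi_smul (W := T.W) (ratAlg (toH T) σ.toRingHom) r x

lemma co_em (σ : ℂ ≃+* ℂ) (c : T.W.H X) : cm T σ X (emL T.W ℂ c) = emL T.W ℂ c :=
  psi_em (W := T.W) (ratAlg (toH T) σ.toRingHom) c

lemma co_map (σ : ℂ ≃+* ℂ) (f : X ⟶ Y) (x : (VC T).H Y) :
    co T σ X ((VC T).map f x) = (VC T).map f (co T σ Y x) :=
  psi_map (W := T.W) (ratAlg (toH T) σ.toRingHom) f x

lemma co_gr (σ : ℂ ≃+* ℂ) {i : ℕ} {x : (VC T).H X} (hx : x ∈ (VC T).gr X i) :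
    co T σ X x ∈ (VC T).gr X i := psi_gr (W := T.W) (ratAlg (toH T) σ.toRingHom) hx

lemma span_em : Submodule.span ℂ (Set.range fun c : T.W.H X => emL T.W ℂ c) = ⊤ := by
  rw [eq_top_iff]
  intro x _
  have key : ∀ x : ℂ ⊗[T.W.K] T.W.H X, (show HL T.W ℂ X from x) ∈
      Submodule.span ℂ (Set.range fun c : T.W.H X => emL T.W ℂ c) := by
    intro x
    induction x using TensorProduct.induction_on with
    | zero => exact Submodule.zero_mem _
    | tmul r c =>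
      have h : (show HL T.W ℂ X from r ⊗ₜ[T.W.K] c) = r • emL T.W ℂ c := by
        have h1 : r ⊗ₜ[T.W.K] c = r • ((1 : ℂ) ⊗ₜ[T.W.K] c) := by
          rw [TensorProduct.smul_tmul', smul_eq_mul, mul_one]
        exact h1
      rw [h]
      exact Submodule.smul_mem _ _ (Submodule.subset_span ⟨c, rfl⟩)
    | add a b ha hb => exact Submodule.add_mem _ ha hb
  exact key x

lemma co_semi (σ : ℂ ≃+* ℂ) (X : 𝒱.Obj) : IsSemi σ
    (Set.range fun c : T.W.H X => emL T.W ℂ c) (cm T σ X) where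
  add x y := map_add (co T σ X) _ _
  smul r x := co_smul σ r x
  fix := by
    rintro _ ⟨c, rfl⟩
    exact co_em σ c

lemma co_tr (σ : ℂ ≃+* ℂ) (x : HL T.W ℂ X) : trL (cm T σ X x) = σ (trL x) := by
  refine semi_eq (V' := ℂ) (σ := σ) (f := fun x : HL T.W ℂ X => trL (cm T σ X x))
    (g := fun x => σ (trL x)) span_em ?_ ?_ ?_ ?_ ?_ x
  · intro x y; rw [(co_semi (T := T) σ X).add, trL_add]
  · intro r x; rw [co_smul, trL_smul, smul_eq_mul]
  · intro x y; rw [trL_add, map_add]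
  · intro r x; rw [trL_smul, map_mul, smul_eq_mul]
  · rintro _ ⟨c, rfl⟩
    have h1 : trL (emL T.W ℂ c) = algebraMap T.W.K ℂ (T.W.tr X c) :=
      Pool.Agent.Y121.AH.em_tr (L := ℂ) c
    obtain ⟨q, hq⟩ := T.rat (T.W.tr X c)
    rw [co_em, h1, ← hq, map_ratCast, map_ratCast]

lemma cm_mul (σ : ℂ ≃+* ℂ) (x y : HL T.W ℂ X) :
    cm T σ X (mulL x y) = mulL (cm T σ X x) (cm T σ X y) := map_mul (co T σ X) _ _

variable (D : DeRham T.W F) (σ : Aut F)

/-- The inverse automorphism. -/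
def ainv (σ : Aut F) : Aut F := ⟨σ.1.symm, fun c hc => by
  rw [RingEquiv.symm_apply_eq]
  exact (σ.2 c hc).symm⟩

/-- The geometric automorphism as a map. -/
noncomputable def rm (X : 𝒱.Obj) (x : HL T.W ℂ X) : HL T.W ℂ X := sg D σ X (cm T σ.1.symm X x)

lemma rm_add (x y : HL T.W ℂ X) : rm D σ X (x + y) = rm D σ X x + rm D σ X y := by
  rw [rm, rm, rm, (co_semi (T := T) σ.1.symm X).add, (sg_semi D σ X).add]

lemma rm_smul (r : ℂ) (x : HL T.W ℂ X) : rm D σ X (r • x) = r • rm D σ X x := by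
  rw [rm, rm, co_smul, (sg_semi D σ X).smul, RingEquiv.apply_symm_apply]

lemma rm_mul (x y : HL T.W ℂ X) : rm D σ X (mulL x y) = mulL (rm D σ X x) (rm D σ X y) := by
  rw [rm, rm, rm, cm_mul, sg_mul]

lemma rm_map (f : X ⟶ Y) (x : HL T.W ℂ Y) : rm D σ X (mapL f x) = mapL f (rm D σ Y x) := by
  have h : cm T σ.1.symm X (mapL f x) = mapL f (cm T σ.1.symm Y x) := co_map σ.1.symm f x
  rw [rm, rm, h, sg_map]

lemma rm_gr {i : ℕ} {x : HL T.W ℂ X} (hx : x ∈ grL T.W ℂ X i) : rm D σ X x ∈ grL T.W ℂ X i :=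
  sg_gr D σ (co_gr σ.1.symm hx)

lemma rm_tr (x : HL T.W ℂ X) : trL (rm D σ X x) = kp σ ^ X.dim * trL x := by
  rw [rm, sg_tr, co_tr, RingEquiv.apply_symm_apply]

lemma rm_em (c : T.W.H X) : rm D σ X (emL T.W ℂ c) = sg D σ X (emL T.W ℂ c) := by
  rw [rm, co_em]

/-- The conjugates of a rational class. -/
lemma rm_twist (j : ℕ) (c : T.W.H X) : (kp σ)⁻¹ ^ j • rm D σ X (emL T.W ℂ c) =
    (twoPiI ^ j)⁻¹ • sg D σ X (twL twoPiI j (emL T.W ℂ c)) := by
  have h1 : twL twoPiI j (emL T.W ℂ c) = twoPiI ^ j • emL T.W ℂ c := rfl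
  have h2 := kp_mul σ j
  have h3 : kp σ ^ j ≠ 0 := pow_ne_zero _ (kp_ne σ)
  have h4 : twoPiI ^ j ≠ 0 := pow_ne_zero _ twoPiI_ne
  rw [rm_em, h1, (sg_semi D σ X).smul, smul_smul]
  congr 1
  rw [inv_pow]
  field_simp
  exact h2.symm

lemma sg_left (x : HL T.W ℂ X) : sg D (ainv σ) X (sg D σ X x) = x :=
  IsSemi.inv (span_sp D) (sg_semi D (ainv σ) X) (g := sg D σ X)
    (by
      have h : (ainv σ).1.symm = σ.1 := RingEquiv.symm_symm σ.1
      rw [h]; exact sg_semi D σ X) x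

lemma sg_right (x : HL T.W ℂ X) : sg D σ X (sg D (ainv σ) X x) = x :=
  IsSemi.inv (span_sp D) (sg_semi D σ X) (sg_semi D (ainv σ) X) x

lemma cm_left (σ : ℂ ≃+* ℂ) (x : HL T.W ℂ X) : cm T σ X (cm T σ.symm X x) = x :=
  IsSemi.inv span_em (co_semi σ X) (co_semi σ.symm X) x

lemma cm_right (σ : ℂ ≃+* ℂ) (x : HL T.W ℂ X) : cm T σ.symm X (cm T σ X x) = x := by
  have h := cm_left (T := T) (X := X) σ.symm x
  rwa [RingEquiv.symm_symm] at h

/-- The inverse. -/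
noncomputable def ri (X : 𝒱.Obj) (x : HL T.W ℂ X) : HL T.W ℂ X :=
  cm T σ.1 X (sg D (ainv σ) X x)

lemma ri_rm (x : HL T.W ℂ X) : ri D σ X (rm D σ X x) = x := by
  rw [ri, rm, sg_left, cm_left]

lemma rm_ri (x : HL T.W ℂ X) : rm D σ X (ri D σ X x) = x := by
  rw [ri, rm, cm_right, sg_right]

lemma rm_one : rm D σ X (1 : (VC T).H X) = (1 : (VC T).H X) := by
  have h1 : ∀ y : HL T.W ℂ X, mulL (show HL T.W ℂ X from (1 : (VC T).H X)) y = y :=
    fun y => one_mul (show (VC T).H X from y)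
  have h2 : ∀ y : HL T.W ℂ X, mulL y (show HL T.W ℂ X from (1 : (VC T).H X)) = y :=
    fun y => mul_one (show (VC T).H X from y)
  have h3 := rm_mul D σ (show HL T.W ℂ X from (1 : (VC T).H X))
    (ri D σ X (show HL T.W ℂ X from (1 : (VC T).H X)))
  rw [h1, rm_ri, h2] at h3
  exact h3.symm

/-- The geometric automorphism. -/
noncomputable def rho (X : 𝒱.Obj) : (VC T).H X ≃ₐ[(VC T).K] (VC T).H X where
  toFun x := rm D σ X x
  invFun x := ri D σ X x
  left_inv x := ri_rm D σ x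
  right_inv x := rm_ri D σ x
  map_mul' x y := rm_mul D σ x y
  map_add' x y := rm_add D σ x y
  commutes' r := by
    rw [Algebra.algebraMap_eq_smul_one]
    have h : rm D σ X (r • (1 : (VC T).H X)) =
        (r • (show (VC T).H X from rm D σ X (1 : (VC T).H X)) : (VC T).H X) := rm_smul D σ r _
    rw [h, rm_one]

end Pool.Agent.D0H78.PR
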