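import Pool.Agent.D0H78.PR.Orb

/-!
# Semilinear maps which fix a form of a complex vector space
-/

namespace Pool.Agent.D0H78.PR

open Module

variable {F : Subfield ℂ} {V V' : Type*} [AddCommGroup V] [Module ℂ V] [AddCommGroup V']
  [Module ℂ V']

/-- The map is semilinear and fixes the elements of `U`. -/
structure IsSemi (σ : ℂ ≃+* ℂ) (U : Set V) (f : V → V) : Prop where
  add : ∀ x y, f (x + y) = f x + f y
  smul : ∀ (r : ℂ) x, f (r • x) = σ r • f x
  fix : ∀ u ∈ U, f u = u

/-- Two semilinear maps which agree on a spanning set. -/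
lemma semi_eq {U : Set V} (hU : Submodule.span ℂ U = ⊤) {σ : ℂ ≃+* ℂ} {f g : V → V'}
    (fa : ∀ x y, f (x + y) = f x + f y) (fs : ∀ (r : ℂ) x, f (r • x) = σ r • f x)
    (ga : ∀ x y, g (x + y) = g x + g y) (gs : ∀ (r : ℂ) x, g (r • x) = σ r • g x)
    (h : ∀ u ∈ U, f u = g u) (x : V) : f x = g x := by
  have hx : x ∈ Submodule.span ℂ U := by rw [hU]; exact Submodule.mem_top
  induction hx using Submodule.span_induction with
  | mem u hu => exact h u hu
  | zero =>
    have h1 := fs 0 0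
    have h2 := gs 0 0
    rw [zero_smul, map_zero, zero_smul] at h1 h2
    rw [h1, h2]
  | add a b _ _ ha hb => rw [fa, ga, ha, hb]
  | smul r a _ ha => rw [fs, gs, ha]

namespace IsSemi

variable {σ τ : ℂ ≃+* ℂ} {U : Set V} {f g : V → V}

lemma zero (hf : IsSemi σ U f) : f 0 = 0 := by
  have h1 := hf.smul 0 0
  rwa [zero_smul, map_zero, zero_smul] at h1

lemma sum (hf : IsSemi σ U f) {ι : Type*} (s : Finset ι) (x : ι → V) :
    f (∑ i ∈ s, x i) = ∑ i ∈ s, f (x i) := by
  classical
  induction s using Finset.induction_on with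
  | empty => rw [Finset.sum_empty, Finset.sum_empty, hf.zero]
  | insert a s ha ih => rw [Finset.sum_insert ha, Finset.sum_insert ha, hf.add, ih]

/-- Composition. -/
lemma comp (hU : Submodule.span ℂ U = ⊤) (hf : IsSemi σ U f) (hg : IsSemi τ U g) {h : V → V}
    (hh : IsSemi (τ.trans σ) U h) (x : V) : f (g x) = h x := by
  refine semi_eq (σ := τ.trans σ) (f := fun x => f (g x)) (g := h) hU ?_ ?_ hh.add hh.smul ?_ x
  · intro x y; rw [hg.add, hf.add]
  · intro r x; rw [hg.smul, hf.smul]; rfl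
  · intro u hu; rw [hg.fix u hu, hf.fix u hu, hh.fix u hu]

lemma inv (hU : Submodule.span ℂ U = ⊤) (hf : IsSemi σ U f) (hg : IsSemi σ.symm U g) (x : V) :
    f (g x) = x := by
  have h1 : IsSemi (σ.symm.trans σ) U (fun x : V => x) :=
    ⟨fun _ _ => rfl, fun r x => by
      rw [RingEquiv.symm_trans_self]; rfl, fun _ _ => rfl⟩
  exact comp hU hf hg h1 x

end IsSemi

/-- A form on which a nondegenerate pairing has values in `F` has a basis. -/
lemma exists_form_basis [FiniteDimensional ℂ V] (U : Submodule F V)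
    (hD : Submodule.span ℂ (U : Set V) = ⊤) (B : V →ₗ[ℂ] V →ₗ[ℂ] ℂ)
    (hB : ∀ v, (∀ w, B v w = 0) → v = 0) (hDB : ∀ v ∈ U, ∀ w ∈ U, B v w ∈ F) :
    ∃ (s : Set V) (_ : Fintype s) (e : Basis s ℂ V), (∀ i, e i ∈ U) ∧
      ∀ u ∈ U, ∀ i, e.repr u i ∈ F := by
  classical
  obtain ⟨s, hs, hspan, hli⟩ := exists_linearIndependent ℂ (U : Set V)
  rw [hD] at hspan
  have hfin : Finite s := hli.finite
  have : Fintype s := Fintype.ofFinite s
  have hsD : ∀ i : s, (i : V) ∈ U := fun i => hs i.2
  let e : Basis s ℂ V := Basis.mk hli (by rw [Subtype.range_coe, hspan])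
  have he : ∀ i, e i = (i : V) := fun i => by rw [Basis.mk_apply]
  refine ⟨s, this, e, fun i => by rw [he]; exact hsD i, fun v hv => ?_⟩
  let R : Matrix s s F := fun i j => ⟨B (i : V) (j : V), hDB _ (hsD i) _ (hsD j)⟩
  have hdet : R.det ≠ 0 := by
    intro h0
    have h1 : (R.map (algebraMap F ℂ)).det = 0 := by
      rw [← RingHom.mapMatrix_apply, ← RingHom.map_det, h0, map_zero]
    obtain ⟨x, hx, hx0⟩ := Matrix.exists_vecMul_eq_zero_iff.2 h1
    apply hx
    have h2 : ∑ i, x i • e i = 0 := by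
      apply hB
      intro w
      have h3 : ∀ j, B (∑ i, x i • e i) (e j) = 0 := by
        intro j
        have h4 := congrFun hx0 j
        rw [Matrix.vecMul, dotProduct] at h4
        rw [map_sum, LinearMap.sum_apply]
        rw [Pi.zero_apply] at h4
        rw [← h4]
        apply Finset.sum_congr rfl
        intro i _
        rw [map_smul, LinearMap.smul_apply, smul_eq_mul, he, he]
        rfl
      have h5 : B (∑ i, x i • e i) = 0 := e.ext fun j => by rw [h3, LinearMap.zero_apply]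
      rw [h5, LinearMap.zero_apply]
    have h6 := Fintype.linearIndependent_iff.1 e.linearIndependent x h2
    funext i
    exact h6 i
  let t : s → F := fun j => ⟨B v (j : V), hDB _ hv _ (hsD j)⟩
  let y : s → F := Matrix.vecMul t R⁻¹
  have hy : Matrix.vecMul y R = t := by
    rw [Matrix.vecMul_vecMul, Matrix.nonsing_inv_mul _ (isUnit_iff_ne_zero.2 hdet),
      Matrix.vecMul_one]
  have hv' : v = ∑ i, ((y i : F) : ℂ) • e i := by
    rw [← sub_eq_zero]
    apply hB
    intro w
    have h3 : ∀ j, B (v - ∑ i, ((y i : F) : ℂ) • e i) (e j) = 0 := by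
      intro j
      have h4 := congrArg (fun z : F => (z : ℂ)) (congrFun hy j)
      rw [Matrix.vecMul, dotProduct] at h4
      rw [map_sub, LinearMap.sub_apply, map_sum, LinearMap.sum_apply, he, sub_eq_zero]
      have h5 : ((t j : F) : ℂ) = B v (j : V) := rfl
      rw [← h5, ← h4]
      push_cast
      apply Finset.sum_congr rfl
      intro i _
      rw [he, map_smul, LinearMap.smul_apply, smul_eq_mul]
    have h5 : B (v - ∑ i, ((y i : F) : ℂ) • e i) = 0 :=
      e.ext fun j => by rw [h3, LinearMap.zero_apply]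
    rw [h5, LinearMap.zero_apply]
  intro i
  have h7 : e.repr v i = ((y i : F) : ℂ) := by
    conv_lhs => rw [hv']
    rw [Basis.repr_sum_self]
  rw [h7]
  exact (y i).2

/-- Existence of the semilinear maps. -/
lemma exists_semi [FiniteDimensional ℂ V] (U : Submodule F V)
    (hD : Submodule.span ℂ (U : Set V) = ⊤) (B : V →ₗ[ℂ] V →ₗ[ℂ] ℂ)
    (hB : ∀ v, (∀ w, B v w = 0) → v = 0) (hDB : ∀ v ∈ U, ∀ w ∈ U, B v w ∈ F)
    (σ : Aut F) : ∃ f : V → V, IsSemi σ.1 (U : Set V) f := by
  obtain ⟨s, hs, e, he, hU⟩ := exists_form_basis U hD B hB hDB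
  refine ⟨fun v => ∑ i, σ.1 (e.repr v i) • e i, fun x y => ?_, fun r x => ?_, fun u hu => ?_⟩
  · rw [← Finset.sum_add_distrib]
    refine Finset.sum_congr rfl fun i _ => ?_
    rw [map_add, Finsupp.add_apply, map_add, add_smul]
  · rw [Finset.smul_sum]
    refine Finset.sum_congr rfl fun i _ => ?_
    rw [map_smul, Finsupp.smul_apply, smul_eq_mul, map_mul, mul_smul]
  · have h1 : ∀ i, σ.1 (e.repr u i) = e.repr u i := fun i => σ.2 _ (hU u hu i)
    simp only [h1]
    exact e.sum_repr u

/-- A vector with finitely many conjugates belongs to the form. -/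
lemma mem_of_finite_orbit [FiniteDimensional ℂ V] [IsAlgClosed F] (U : Submodule F V)
    (hD : Submodule.span ℂ (U : Set V) = ⊤) (B : V →ₗ[ℂ] V →ₗ[ℂ] ℂ)
    (hB : ∀ v, (∀ w, B v w = 0) → v = 0) (hDB : ∀ v ∈ U, ∀ w ∈ U, B v w ∈ F)
    (sg : Aut F → V → V) (hs : ∀ σ, IsSemi σ.1 (U : Set V) (sg σ)) {v : V}
    (h : (Set.range fun σ => sg σ v).Finite) : v ∈ U := by
  obtain ⟨s, hs', e, he, hU⟩ := exists_form_basis U hD B hB hDB
  have h1 : ∀ i, e.repr v i ∈ F := by
    intro i
    apply mem_of_finite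
    have h2 : (fun σ : Aut F => σ.1 (e.repr v i)) = fun σ => e.repr (sg σ v) i := by
      funext σ
      have h3 : sg σ v = ∑ i, σ.1 (e.repr v i) • e i := by
        conv_lhs => rw [← e.sum_repr v]
        rw [(hs σ).sum]
        refine Finset.sum_congr rfl fun i _ => ?_
        rw [(hs σ).smul, (hs σ).fix _ (he i)]
      rw [h3, Basis.repr_sum_self]
    rw [h2]
    have h4 : (fun σ : Aut F => e.repr (sg σ v) i) = (fun x => e.repr x i) ∘ fun σ => sg σ v := rfl
    rw [h4, Set.range_comp]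
    exact h.image _
  rw [← e.sum_repr v]
  refine Submodule.sum_mem _ fun i _ => ?_
  have h5 : e.repr v i • e i = (⟨e.repr v i, h1 i⟩ : F) • e i := rfl
  rw [h5]
  exact Submodule.smul_mem _ _ (he i)

end Pool.Agent.D0H78.PR
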