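import Pool.Agent.D0H78.PR.LDefs
import Pool.Agent.D0H78.PR.Geo
import Pool.Agent.D0H78.PR.Semi
import Pool.Agent.Y121.AHS.Conv

/-!
# The semilinear automorphisms given by the de Rham cohomology
-/

open CategoryTheory AlgebraicGeometry TensorProduct

universe u v w

namespace Pool.Agent.D0H78.PR

open Module
open Pool.Agent.H914 Pool.Agent.H914.VarClass Pool.Agent.H914.VarClass.Obj
  Pool.Agent.H914.WeilCohomology Pool.Agent.Y121.AHS Pool.Agent.D0H78.PRL
open Pool.Agent.Y121.AH (CW)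

variable {k : Type u} [Field k] {𝒱 : VarClass k} {ops : CycleOps 𝒱} {T : HodgeTheory ops}
  {F : Subfield ℂ} (D : DeRham T.W F) (X Y : 𝒱.Obj)

lemma twoPiI_ne : twoPiI ≠ 0 := Complex.two_pi_I_ne_zero

/-- The union of the de Rham cohomology groups. -/
def un : Set (HL T.W ℂ X) := ⋃ i, D.dR X i

/-- The de Rham cohomology. -/
noncomputable def sp : Submodule F (HL T.W ℂ X) := Submodule.span F (un D X)

/-- The complex theory. -/
noncomputable abbrev VC (T : HodgeTheory ops) : WeilCohomology.{u, 0} ops := CW (toH T)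

instance : FiniteDimensional ℂ (HL T.W ℂ X) :=
  (inferInstance : FiniteDimensional (VC T).K ((VC T).H X))

/-- The pairing. -/
noncomputable def B0 (T : HodgeTheory ops) (X : 𝒱.Obj) :
    HL T.W ℂ X →ₗ[ℂ] HL T.W ℂ X →ₗ[ℂ] ℂ :=
  ((LinearMap.mul (VC T).K ((VC T).H X)).compr₂ ((VC T).tr X) :
    (VC T).H X →ₗ[(VC T).K] (VC T).H X →ₗ[(VC T).K] (VC T).K)

/-- The normalised pairing. -/
noncomputable def B1 (T : HodgeTheory ops) (X : 𝒱.Obj) :
    HL T.W ℂ X →ₗ[ℂ] HL T.W ℂ X →ₗ[ℂ] ℂ := (twoPiI ^ X.dim)⁻¹ • B0 T X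

lemma B1_apply (a b : HL T.W ℂ X) : B1 T X a b = (twoPiI ^ X.dim)⁻¹ * trL (mulL a b) := rfl

variable {X}

lemma span_un : Submodule.span ℂ (un D X) = ⊤ := by
  rw [eq_top_iff]
  intro x _
  have key : ∀ x : (VC T).H X, (show HL T.W ℂ X from x) ∈ Submodule.span ℂ (un D X) := by
    intro x
    refine gr_induction ((VC T).isInternal X)
      (p := fun x => (show HL T.W ℂ X from x) ∈ Submodule.span ℂ (un D X)) ?_ ?_ x
    · intro i x hx
      have h1 : (show HL T.W ℂ X from x) ∈ grL T.W ℂ X i := hx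
      rw [← (D.form X i).2.2.2] at h1
      exact Submodule.span_mono (Set.subset_iUnion (fun i => D.dR X i) i) h1
    · intro a b ha hb
      exact Submodule.add_mem _ ha hb
  exact key x

lemma span_sp : Submodule.span ℂ (sp D X : Set (HL T.W ℂ X)) = ⊤ := by
  rw [eq_top_iff, ← span_un D]
  exact Submodule.span_mono Submodule.subset_span

lemma dR_gr {i : ℕ} {a : HL T.W ℂ X} (ha : a ∈ D.dR X i) : a ∈ grL T.W ℂ X i := by
  rw [← (D.form X i).2.2.2]
  exact Submodule.subset_span ha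

lemma tr_dR {i : ℕ} {a : HL T.W ℂ X} (ha : a ∈ D.dR X i) :
    ∃ r ∈ F, trL a = twoPiI ^ X.dim * r := by
  by_cases hi : i = 2 * X.dim
  · subst hi
    exact D.tr X a ha
  · refine ⟨0, F.zero_mem, ?_⟩
    rw [mul_zero]
    exact (VC T).tr_eq_zero (dR_gr D ha) hi

lemma B1_dR {i j : ℕ} {a b : HL T.W ℂ X} (ha : a ∈ D.dR X i) (hb : b ∈ D.dR X j) :
    B1 T X a b ∈ F := by
  obtain ⟨r, hr, h⟩ := tr_dR D (D.mul X i j a b ha hb)
  rw [B1_apply, h, ← mul_assoc, inv_mul_cancel₀ (pow_ne_zero _ twoPiI_ne), one_mul]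
  exact hr

lemma B1_mem (v : HL T.W ℂ X) (hv : v ∈ sp D X) (w : HL T.W ℂ X) (hw : w ∈ sp D X) :
    B1 T X v w ∈ F := by
  unfold sp at hv hw
  induction hv using Submodule.span_induction with
  | mem a ha =>
    obtain ⟨i, hi⟩ := Set.mem_iUnion.1 ha
    induction hw using Submodule.span_induction with
    | mem b hb =>
      obtain ⟨j, hj⟩ := Set.mem_iUnion.1 hb
      exact B1_dR D hi hj
    | zero => rw [map_zero]; exact F.zero_mem
    | add x y _ _ hx hy => rw [map_add]; exact F.add_mem hx hy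
    | smul r x _ hx =>
      have h1 : r • x = (r : ℂ) • x := rfl
      rw [h1, map_smul]
      exact F.mul_mem r.2 hx
  | zero => rw [map_zero, LinearMap.zero_apply]; exact F.zero_mem
  | add x y _ _ hx hy => rw [map_add, LinearMap.add_apply]; exact F.add_mem hx hy
  | smul r x _ hx =>
    have h1 : r • x = (r : ℂ) • x := rfl
    rw [h1, map_smul, LinearMap.smul_apply]
    exact F.mul_mem r.2 hx

lemma B1_nondeg (v : HL T.W ℂ X) (h : ∀ w, B1 T X v w = 0) : v = 0 := by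
  have h1 : (show (VC T).H X from v) = 0 := by
    apply (VC T).tr_ext
    intro y
    rw [zero_mul, map_zero]
    have h2 := h y
    rw [B1_apply] at h2
    exact (mul_eq_zero.1 h2).resolve_left (inv_ne_zero (pow_ne_zero _ twoPiI_ne))
  exact h1

lemma exists_sg (σ : Aut F) (X : 𝒱.Obj) :
    ∃ f : HL T.W ℂ X → HL T.W ℂ X, IsSemi σ.1 (sp D X : Set (HL T.W ℂ X)) f :=
  exists_semi (sp D X) (span_sp D) (B1 T X) (B1_nondeg) (B1_mem D) σ

/-- The semilinear automorphism which fixes the de Rham cohomology. -/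
noncomputable def sg (σ : Aut F) (X : 𝒱.Obj) : HL T.W ℂ X → HL T.W ℂ X :=
  (exists_sg D σ X).choose

lemma sg_semi (σ : Aut F) (X : 𝒱.Obj) : IsSemi σ.1 (sp D X : Set (HL T.W ℂ X)) (sg D σ X) :=
  (exists_sg D σ X).choose_spec

variable {Y}

lemma sg_fix (σ : Aut F) {i : ℕ} {a : HL T.W ℂ X} (ha : a ∈ D.dR X i) : sg D σ X a = a :=
  (sg_semi D σ X).fix a (Submodule.subset_span (Set.mem_iUnion.2 ⟨i, ha⟩))

/-- Semilinear maps which agree on the de Rham cohomology groups. -/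
lemma sg_eq {V' : Type*} [AddCommGroup V'] [Module ℂ V'] {σ : ℂ ≃+* ℂ}
    {f g : HL T.W ℂ X → V'}
    (fa : ∀ x y, f (x + y) = f x + f y) (fs : ∀ (r : ℂ) x, f (r • x) = σ r • f x)
    (ga : ∀ x y, g (x + y) = g x + g y) (gs : ∀ (r : ℂ) x, g (r • x) = σ r • g x)
    (h : ∀ i, ∀ u ∈ D.dR X i, f u = g u) (x : HL T.W ℂ X) : f x = g x :=
  semi_eq (span_un D) fa fs ga gs (fun u hu => by
    obtain ⟨i, hi⟩ := Set.mem_iUnion.1 hu
    exact h i u hi) x

lemma mulL_add (a b c : HL T.W ℂ X) : mulL a (b + c) = mulL a b + mulL a c :=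
  mul_add (show (VC T).H X from a) b c

lemma add_mulL (a b c : HL T.W ℂ X) : mulL (a + b) c = mulL a c + mulL b c :=
  add_mul (show (VC T).H X from a) b c

lemma smul_mulL (r : ℂ) (a b : HL T.W ℂ X) : mulL (r • a) b = r • mulL a b :=
  smul_mul_assoc (show (VC T).K from r) (show (VC T).H X from a) (show (VC T).H X from b)

lemma mulL_smul (r : ℂ) (a b : HL T.W ℂ X) : mulL a (r • b) = r • mulL a b :=
  mul_smul_comm (show (VC T).K from r) (show (VC T).H X from a) (show (VC T).H X from b)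

lemma sg_mul (σ : Aut F) (a b : HL T.W ℂ X) :
    sg D σ X (mulL a b) = mulL (sg D σ X a) (sg D σ X b) := by
  have hs := sg_semi D σ X
  refine sg_eq D (σ := σ.1) (f := fun a => sg D σ X (mulL a b))
    (g := fun a => mulL (sg D σ X a) (sg D σ X b)) ?_ ?_ ?_ ?_ ?_ a
  · intro x y; rw [add_mulL, hs.add]
  · intro r x; rw [smul_mulL, hs.smul]
  · intro x y; rw [hs.add, add_mulL]
  · intro r x; rw [hs.smul, smul_mulL]
  · intro i u hu
    refine sg_eq D (σ := σ.1) (f := fun b => sg D σ X (mulL u b))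
      (g := fun b => mulL (sg D σ X u) (sg D σ X b)) ?_ ?_ ?_ ?_ ?_ b
    · intro x y; rw [mulL_add, hs.add]
    · intro r x; rw [mulL_smul, hs.smul]
    · intro x y; rw [hs.add, mulL_add]
    · intro r x; rw [hs.smul, mulL_smul]
    · intro j v hv
      rw [sg_fix D σ (D.mul X i j u v hu hv), sg_fix D σ hu, sg_fix D σ hv]

lemma mapL_add (f : X ⟶ Y) (a b : HL T.W ℂ Y) : mapL f (a + b) = mapL f a + mapL f b :=
  map_add ((VC T).map f) (show (VC T).H Y from a) b

lemma mapL_smul (f : X ⟶ Y) (r : ℂ) (a : HL T.W ℂ Y) : mapL f (r • a) = r • mapL f a :=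
  map_smul ((VC T).map f) (show (VC T).K from r) (show (VC T).H Y from a)

lemma sg_map (σ : Aut F) (f : X ⟶ Y) (b : HL T.W ℂ Y) :
    sg D σ X (mapL f b) = mapL f (sg D σ Y b) := by
  have hs := sg_semi D σ X
  have hs' := sg_semi D σ Y
  refine sg_eq D (σ := σ.1) (f := fun b => sg D σ X (mapL f b))
    (g := fun b => mapL f (sg D σ Y b)) ?_ ?_ ?_ ?_ ?_ b
  · intro x y; rw [mapL_add, hs.add]
  · intro r x; rw [mapL_smul, hs.smul]
  · intro x y; rw [hs'.add, mapL_add]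
  · intro r x; rw [hs'.smul, mapL_smul]
  · intro i u hu
    rw [sg_fix D σ (D.map X Y f i u hu), sg_fix D σ hu]

lemma sg_gr (σ : Aut F) {i : ℕ} {a : HL T.W ℂ X} (ha : a ∈ grL T.W ℂ X i) :
    sg D σ X a ∈ grL T.W ℂ X i := by
  have hs := sg_semi D σ X
  have ha' : a ∈ Submodule.span ℂ (D.dR X i) := by rw [(D.form X i).2.2.2]; exact ha
  induction ha' using Submodule.span_induction with
  | mem u hu => rw [sg_fix D σ hu]; exact dR_gr D hu
  | zero => rw [hs.zero]; exact Submodule.zero_mem _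
  | add x y hx hy h1 h2 =>
    rw [(D.form X i).2.2.2] at hx hy
    rw [hs.add]
    exact Submodule.add_mem _ (h1 hx) (h2 hy)
  | smul r x hx h1 =>
    rw [(D.form X i).2.2.2] at hx
    rw [hs.smul]
    exact Submodule.smul_mem _ _ (h1 hx)

/-- The effect on `2 π i`. -/
noncomputable def kp (σ : Aut F) : ℂ := twoPiI * (σ.1 twoPiI)⁻¹

lemma kp_ne (σ : Aut F) : kp σ ≠ 0 :=
  mul_ne_zero twoPiI_ne (inv_ne_zero ((map_ne_zero σ.1).2 twoPiI_ne))

lemma kp_mul (σ : Aut F) (n : ℕ) : kp σ ^ n * σ.1 (twoPiI ^ n) = twoPiI ^ n := by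
  have h : σ.1 twoPiI ≠ 0 := (map_ne_zero σ.1).2 twoPiI_ne
  rw [map_pow, ← mul_pow, kp, mul_assoc, inv_mul_cancel₀ h, mul_one]

lemma trL_add (a b : HL T.W ℂ X) : trL (a + b) = trL a + trL b :=
  map_add ((VC T).tr X) (show (VC T).H X from a) b

lemma trL_smul (r : ℂ) (a : HL T.W ℂ X) : trL (r • a) = r * trL a :=
  map_smul ((VC T).tr X) (show (VC T).K from r) (show (VC T).H X from a)

lemma sg_tr (σ : Aut F) (a : HL T.W ℂ X) :
    trL (sg D σ X a) = kp σ ^ X.dim * σ.1 (trL a) := by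
  have hs := sg_semi D σ X
  refine sg_eq D (V' := ℂ) (σ := σ.1) (f := fun a => trL (sg D σ X a))
    (g := fun a => kp σ ^ X.dim * σ.1 (trL a)) ?_ ?_ ?_ ?_ ?_ a
  · intro x y; rw [hs.add, trL_add]
  · intro r x; rw [hs.smul, trL_smul, smul_eq_mul]
  · intro x y; rw [trL_add, map_add, mul_add]
  · intro r x; rw [trL_smul, map_mul, smul_eq_mul, mul_left_comm]
  · intro i u hu
    obtain ⟨r, hr, h⟩ := tr_dR D hu
    rw [sg_fix D σ hu, h, map_mul, σ.2 r hr, ← mul_assoc, kp_mul]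

end Pool.Agent.D0H78.PR
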